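import Pool.Agent.H.MP_08eaf3_pr.A.Basic

/-!
# Interface of Part A (Gaussian tools; leader helper86)

The leader may add further tools and change technical hypotheses of A1-A4; the statements below
marked FIXED are used by other parts.
-/

set_option autoImplicit false

open MeasureTheory ProbabilityTheory Filter Topology Matrix

namespace SKC

/-- FIXED A0: the law of a linear image of a standard Gaussian vector depends only on the covariance -/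
theorem gam_map_linear_eq {ι κ κ' : Type} [Fintype ι] [Fintype κ] [Fintype κ']
    (M : Matrix ι κ ℝ) (M' : Matrix ι κ' ℝ) (h : M * Mᵀ = M' * M'ᵀ) :
    (gam κ).map (fun x => M.mulVec x) = (gam κ').map (fun x => M'.mulVec x) := by
  exact A.law_map_linear_eq M M' h

/-- FIXED A0': the law of the Gaussian field `(<x, v ω>)_ω` depends only on the kernel -/
theorem gam_map_field_eq {Ω κ κ' : Type} [Fintype Ω] [Fintype κ] [Fintype κ']
    (v : Ω → κ → ℝ) (v' : Ω → κ' → ℝ) (h : ∀ ω ω', dot (v ω) (v ω') = dot (v' ω) (v' ω')) :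
    (gam κ).map (fun x ω => dot x (v ω)) = (gam κ').map (fun x ω => dot x (v' ω)) := by
  exact A.law_map_field_eq v v' h

/-- FIXED A2 (i) -/
theorem EL_congr_cov {Ω κ κ' : Type} [Fintype κ] [Fintype κ'] (B : Finset Ω)
    (v : Ω → κ → ℝ) (v' : Ω → κ' → ℝ) (a : Ω → ℝ)
    (h : ∀ ω ∈ B, ∀ ω' ∈ B, dot (v ω) (v ω') = dot (v' ω) (v' ω')) : EL B v a = EL B v' a := by
  exact A.EL_congr B v v' a h

/-- FIXED A2 (ii) -/
theorem EL_diff_le {Ω κ κ' : Type} [Fintype κ] [Fintype κ'] (B : Finset Ω) (hB : B.Nonempty)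
    (v : Ω → κ → ℝ) (v' : Ω → κ' → ℝ) (a : Ω → ℝ) (κ0 : ℝ)
    (h : ∀ ω ∈ B, ∀ ω' ∈ B, |dot (v ω) (v ω') - dot (v' ω) (v' ω')| ≤ κ0) :
    |EL B v a - EL B v' a| ≤ κ0 := by
  exact A.EL_sub_le B hB v v' a κ0 h

/-- FIXED A3 for free energies -/
theorem var_lse_le {Ω κ : Type} [Fintype κ] (B : Finset Ω) (hB : B.Nonempty)
    (v : Ω → κ → ℝ) (a : Ω → ℝ) (κ0 : ℝ) (h : ∀ ω ∈ B, dot (v ω) (v ω) ≤ κ0) :
    ∫ x, (lse B (fun ω => dot x (v ω) + a ω) - EL B v a) ^ 2 ∂(gam κ) ≤ κ0 := by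
  exact A.var_lse B hB v a κ0 h

/-- FIXED A5: improved Poincaré inequality for even functions; `D i` = partial derivatives -/
theorem var_even_le {κ : Type} [Fintype κ] [DecidableEq κ] (f : (κ → ℝ) → ℝ)
    (D : κ → (κ → ℝ) → ℝ) (L : ℝ) (hf : ∀ x, f (-x) = f x)
    (hD : ∀ i x, HasDerivAt (fun h : ℝ => f (x + h • Pi.single i 1)) (D i x) 0)
    (hDc : ∀ i, Continuous (D i)) (hDb : ∀ i x, |D i x| ≤ L)
    (hDl : ∀ i x y, |D i x - D i y| ≤ L * n1 (x - y)) :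
    ∫ x, (f x - ∫ y, f y ∂(gam κ)) ^ 2 ∂(gam κ) ≤
      (1 / 2) * (∫ x, ∑ i, D i x ^ 2 ∂(gam κ)) -
      (1 / 4) * (∫ b, ∫ a, ∑ i,
        ((D i ((Real.sqrt 2)⁻¹ • (a + b)) - D i ((Real.sqrt 2)⁻¹ • (a - b))) / Real.sqrt 2 -
          ∫ a', (D i ((Real.sqrt 2)⁻¹ • (a' + b)) - D i ((Real.sqrt 2)⁻¹ • (a' - b))) / Real.sqrt 2
            ∂(gam κ)) ^ 2 ∂(gam κ) ∂(gam κ)) := by
  exact A.var_even (A.LG_of_bounded_deriv hD hDc hDb).eg hf hD
    (fun i => EG.of_bdd (hDc i) (hDb i))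

/-- FIXED: one-step Cameron-Martin formula -/
theorem cameron_martin {κ : Type} [Fintype κ] (h : (κ → ℝ) → ℝ) (s : κ → ℝ) (hh : Continuous h)
    (hb : ∃ C, ∀ x, |h x| ≤ C * Real.exp (C * n1 x)) :
    ∫ x, h (x + s) ∂(gam κ) = ∫ x, h x * Real.exp (dot s x - dot s s / 2) ∂(gam κ) := by
  exact A.cm h s

end SKC
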