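import Pool.Agent.H.MP_08eaf3_pr.Defs2
import Pool.Agent.H.MP_08eaf3_pr.B.Guerra
import Pool.Agent.H.MP_08eaf3_pr.B.B2
import Pool.Agent.H.MP_08eaf3_pr.B.TopSplit
import Pool.Agent.H.MP_08eaf3_pr.B.Lift2
import Pool.Agent.H.MP_08eaf3_pr.I.Split

/-!
# Interface of Part B (leader helper62)
-/

set_option autoImplicit false

open MeasureTheory ProbabilityTheory Filter Topology Matrix

namespace SKC

variable {K : Type} [Fintype K] [DecidableEq K]

/-- Theorem B (Guerra bound for step paths). Paper proof: note, Part B. -/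
theorem guerra (β : K → ℝ) (hβ : ∀ c, 0 ≤ β c) (φ : (K → Bool) → ℝ) (t : ℝ) (l : List (Step K))
    (hl : Valid l) (ε : ℝ) (hε : 0 ≤ ε) (N : ℕ) (hN : 0 < N) (B : Finset (Cfg K N))
    (hB : B.Nonempty) (hBn : ∀ ρ ∈ B, ∀ c c', |ov ρ ρ c c' - Qtot l c c'| ≤ ε) :
    EL B (vH β N) (fun ρ => t * ∑ i, φ (ρ i)) ≤
      N * Pf β φ t l + (N : ℝ) / 2 * (∑ c, β c) ^ 2 * ε ^ 2 := by
  exact SKC.B.guerra β hβ φ t l hl ε hε N hN B hB hBn

/-- B2: first order expansion of `Pf` in `t`, with remainder `t²/2` -/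
theorem Pf_expand (β : K → ℝ) (φ : (K → Bool) → ℝ) (hφ : ∀ s, |φ s| ≤ 1) (t : ℝ)
    (l : List (Step K)) (hl : Valid l) :
    Pf β φ t l ≤ Pf β (fun _ => 0) 0 l + t * ChE β l F0 (spAvg φ) 0 + t ^ 2 / 2 := by
  exact B.Pf_expand β φ hφ t l hl

/-- B3: two adjacent steps of the same weight may be merged (levels) -/
theorem PsiL_merge (β : K → ℝ) (m : ℝ) (hm : 0 ≤ m) (E1 E2 E : Matrix K K ℝ)
    (hE : E * Eᵀ = E1 * E1ᵀ + E2 * E2ᵀ) (l : List (Step K)) (F : (K → ℝ) → ℝ) (hF : LG F) :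
    PsiL β ((m, E1) :: (m, E2) :: l) F = PsiL β ((m, E) :: l) F := by
  exact B.PsiL_merge β m E1 E2 E hE l F hF

/-- B3: a step of zero increment may be dropped -/
theorem PsiL_zero (β : K → ℝ) (m : ℝ) (hm : 0 ≤ m) (l : List (Step K)) (F : (K → ℝ) → ℝ) :
    PsiL β ((m, 0) :: l) F = PsiL β l F := by
  exact B.PsiL_zero β m l F

/-- B3: two adjacent steps of the same weight may be merged (chains) -/
theorem ChE_merge (β : K → ℝ) (m : ℝ) (hm : 0 ≤ m) (E1 E2 E : Matrix K K ℝ)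
    (hE : E * Eᵀ = E1 * E1ᵀ + E2 * E2ᵀ) (l : List (Step K)) (F h : (K → ℝ) → ℝ) (hF : LG F)
    (hh : EG h) :
    ChE β ((m, E1) :: (m, E2) :: l) F h = ChE β ((m, E) :: l) F h := by
  exact B.ChE_merge β m E1 E2 E hE l F h hF hh

/-- B3: a step of zero increment may be dropped (chains) -/
theorem ChE_zero (β : K → ℝ) (m : ℝ) (hm : 0 ≤ m) (l : List (Step K)) (F h : (K → ℝ) → ℝ) :
    ChE β ((m, 0) :: l) F h = ChE β l F h := by
  exact B.ChE_zero β m l F h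

/-- everything depends on a step factor only through `E Eᵀ` -/
theorem PsiL_congr_factor (β : K → ℝ) (m : ℝ) (E E' : Matrix K K ℝ) (hE : E * Eᵀ = E' * E'ᵀ)
    (l : List (Step K)) (F : (K → ℝ) → ℝ) (hF : LG F) :
    PsiL β ((m, E) :: l) F = PsiL β ((m, E') :: l) F := by
  exact B.PsiL_congr_factor β m E E' hE l F hF

theorem ChE_congr_factor (β : K → ℝ) (m : ℝ) (E E' : Matrix K K ℝ) (hE : E * Eᵀ = E' * E'ᵀ)
    (l : List (Step K)) (F h : (K → ℝ) → ℝ) (hF : LG F) (hh : EG h) :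
    ChE β ((m, E) :: l) F h = ChE β ((m, E') :: l) F h := by
  exact B.ChE_congr_factor β m E E' hE l F h hF hh

/-- B3 for single paths: near-optimal single paths through prescribed levels exist -/
theorem exists_singlePath (b q q' δ : ℝ) (hb : 0 < b) (hδ : 0 < δ) (h0 : 0 ≤ q) (h1 : q ≤ q')
    (h2 : q' ≤ 1) : ∃ s1 s2 s3 : List (Step Unit), SinglePath b q q' δ s1 s2 s3 := by
  exact I.exists_singlePath
    (fun β m _ E1 E2 E hE l F hF => B.PsiL_merge β m E1 E2 E hE l F hF) b q q' δ hδ h0 h1 h2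

/-- B3: the last step (weight 1) of a pair path may be split at `Q'` -/
theorem PairPath_split_top (b1 b2 u : ℝ) (Q Q' : Matrix (Fin 2) (Fin 2) ℝ) (δ : ℝ)
    (l1 l2 : List (Step (Fin 2))) (E E1 E2 : Matrix (Fin 2) (Fin 2) ℝ)
    (hp : PairPath b1 b2 u Q Q δ l1 l2 [((1 : ℝ), E)]) (h1 : E1 * E1ᵀ = Q' - Q)
    (h2 : E2 * E2ᵀ = mat 1 1 u - Q') :
    PairPath b1 b2 u Q Q' δ (l1 ++ l2) [((1 : ℝ), E1)] [((1 : ℝ), E2)] := by
  exact B.PairPath_split_top b1 b2 u Q Q' δ l1 l2 E E1 E2 hp h1 h2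

/-- B4: lifts are valid -/
theorem lift_valid (n k : ℕ) (hn : 0 < n) (hk : 0 < k) (l1 l2 l3 : List (Step K))
    (hl : Valid (l1 ++ (l2 ++ l3))) (hl3 : l3 ≠ []) : Valid (lift n k l1 l2 l3) := by
  exact B.lift_valid n k hn hk l1 l2 l3 hl hl3

/-- B4: end value of a lift -/
theorem Qtot_lift (n k : ℕ) (hn : 0 < n) (hk : 0 < k) (l1 l2 l3 : List (Step K)) :
    Qtot (lift n k l1 l2 l3) =
      treeG n k (Qtot (l1 ++ (l2 ++ l3))) (Qtot l1) (Qtot (l1 ++ l2)) := by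
  exact B.Qtot_lift n k hn hk l1 l2 l3

/-- B4: the functional of a lift -/
theorem Pf_lift (β : K → ℝ) (n k : ℕ) (hn : 0 < n) (hk : 0 < k) (l1 l2 l3 : List (Step K))
    (hl : Valid (l1 ++ (l2 ++ l3))) :
    Pf (fun p : (Fin n × Fin k) × K => β p.2) (fun _ => 0) 0 (lift n k l1 l2 l3) =
      (n : ℝ) * k * Pf β (fun _ => 0) 0 (l1 ++ (l2 ++ l3)) := by
  exact B.Pf_lift β n k hn hk l1 l2 l3

/-- B4: the chain of a lift: one chain up to the level `Qtot l1`, then `n` independent copies, each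
continued by `k` independent copies after the level `Qtot (l1 ++ l2)` -/
theorem ChE_lift (β : K → ℝ) (n k : ℕ) (hn : 0 < n) (hk : 0 < k) (l1 l2 l3 : List (Step K))
    (hl : Valid (l1 ++ (l2 ++ l3))) (ψ : Fin n → Fin k → (K → Bool) → ℝ) :
    ChE (fun p : (Fin n × Fin k) × K => β p.2) (lift n k l1 l2 l3) F0
        (spAvg (fun s => ∏ i, ∏ a, ψ i a (fun c => s ((i, a), c)))) 0 =
      ChE β l1 (PsiL β (l2 ++ l3) F0)
        (fun z => ∏ i, ChE β l2 (PsiL β l3 F0)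
          (fun z' => ∏ a, ChE β l3 F0 (spAvg (ψ i a)) z') z) 0 := by
  exact B.ChE_lift β n k hn hk l1 l2 l3 ψ

end SKC
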