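import Pool.Agent.H.MP_08eaf3_pr.Defs

/-!
# Replica systems, Gibbs averages, the perturbed pair system, families and ultrafilter limits

Common file of the parts D, E, F, G, H (definitions only; lemmas in `Sys/*.lean`, `D/*.lean`).
-/

set_option autoImplicit false

open MeasureTheory ProbabilityTheory Filter Topology Matrix

namespace SKC

/-! ### Gibbs averages of finite Gaussian systems -/

/-- Gibbs weight of `ω` for the energies `<x, v ω> + a ω` -/
noncomputable def gw {Ω ι : Type} [Fintype Ω] [Fintype ι] (v : Ω → ι → ℝ) (a : Ω → ℝ)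
    (x : ι → ℝ) (ω : Ω) : ℝ :=
  Real.exp (dot x (v ω) + a ω) / ∑ ω' : Ω, Real.exp (dot x (v ω') + a ω')

/-- quenched average of a function of `n` replicas -/
noncomputable def GA {Ω ι : Type} [Fintype Ω] [Fintype ι] (v : Ω → ι → ℝ) (a : Ω → ℝ)
    {n : ℕ} (f : (Fin n → Ω) → ℝ) : ℝ :=
  ∫ x, ∑ r : Fin n → Ω, (∏ l, gw v a x (r l)) * f r ∂(gam ι)

/-! ### Replica systems on the pair configurations -/

/-- a random Gibbs measure on the configurations of the pair system with `N` sites -/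
structure RS (N : ℕ) where
  /-- disorder space -/
  X : Type
  /-- its measurable structure -/
  ms : MeasurableSpace X
  /-- law of the disorder -/
  mu : @Measure X ms
  /-- it is a probability measure -/
  pr : @IsProbabilityMeasure X ms mu
  /-- Gibbs weights -/
  G : X → Cfg (Fin 2) N → ℝ
  /-- measurability -/
  meas : ∀ ρ, @Measurable X ℝ ms _ (fun x => G x ρ)
  /-- nonnegative -/
  nonneg : ∀ x ρ, 0 ≤ G x ρ
  /-- total mass one -/
  sum_one : ∀ x, ∑ ρ : Cfg (Fin 2) N, G x ρ = 1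

instance {N : ℕ} (S : RS N) : MeasurableSpace S.X := S.ms

instance {N : ℕ} (S : RS N) : IsProbabilityMeasure S.mu := S.pr

/-- average of a function of the disorder and of `n` replicas -/
noncomputable def RS.avx {N : ℕ} (S : RS N) {n : ℕ} (f : S.X → (Fin n → Cfg (Fin 2) N) → ℝ) : ℝ :=
  ∫ x, ∑ r : Fin n → Cfg (Fin 2) N, (∏ l, S.G x (r l)) * f x r ∂S.mu

/-- average of a function of `n` replicas -/
noncomputable def RS.av {N : ℕ} (S : RS N) {n : ℕ} (f : (Fin n → Cfg (Fin 2) N) → ℝ) : ℝ :=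
  S.avx (fun _ r => f r)

/-- the entries `(R00, R11, R01 + R10)` of an overlap matrix -/
def Tv (R : Matrix (Fin 2) (Fin 2) ℝ) : ℝ × ℝ × ℝ := (R 0 0, R 1 1, R 0 1 + R 1 0)

/-- overlap matrix as a matrix -/
noncomputable def ovM {N : ℕ} (ρ ρ' : Cfg (Fin 2) N) : Matrix (Fin 2) (Fin 2) ℝ :=
  fun c c' => ov ρ ρ' c c'

/-- the array of overlap matrices of `n` replicas -/
noncomputable def arr {N n : ℕ} (r : Fin n → Cfg (Fin 2) N) :
    Fin n → Fin n → Matrix (Fin 2) (Fin 2) ℝ :=
  fun l l' => ovM (r l) (r l')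

/-- the Ghirlanda-Guerra expression for a function `f` of `n` replicas, replica `l` and a function
`ψ` of the entries `T` of the overlap matrix -/
noncomputable def RS.gg {N : ℕ} (S : RS N) {n : ℕ} (f : (Fin n → Cfg (Fin 2) N) → ℝ) (l : Fin n)
    (ψ : ℝ × ℝ × ℝ → ℝ) : ℝ :=
  (n : ℝ) * S.av (n := n + 1)
      (fun r => f (fun j => r j.castSucc) * ψ (Tv (ovM (r l.castSucc) (r (Fin.last n)))))
    - S.av f * S.av (n := 2) (fun r => ψ (Tv (ovM (r 0) (r 1))))
    - ∑ j ∈ Finset.univ.erase l, S.av (fun r => f r * ψ (Tv (ovM (r l) (r j))))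

/-! ### Ultrafilter limits and families -/

/-- limit of a bounded family of reals along an ultrafilter -/
noncomputable def ul {I : Type} (U : Ultrafilter I) (a : I → ℝ) : ℝ := limUnder (U : Filter I) a

/-- a family of replica systems with an ultrafilter on the index type; `u` is the (limiting) overlap
of the two spins of one pair -/
structure Fam where
  /-- index type -/
  I : Type
  /-- the ultrafilter -/
  U : Ultrafilter I
  /-- number of sites -/
  Nn : I → ℕ
  /-- the systems -/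
  S : ∀ i, RS (Nn i)
  /-- overlap of the pair -/
  u : ℝ

/-- limit expectation of functions of `n` replicas -/
noncomputable def Fam.E (F : Fam) {n : ℕ} (f : ∀ i, (Fin n → Cfg (Fin 2) (F.Nn i)) → ℝ) : ℝ :=
  ul F.U (fun i => (F.S i).av (f i))

/-- limit expectation of a function of the array of overlap matrices -/
noncomputable def Fam.EA (F : Fam) {n : ℕ}
    (Φ : (Fin n → Fin n → Matrix (Fin 2) (Fin 2) ℝ) → ℝ) : ℝ :=
  F.E (fun _ r => Φ (arr r))

/-- properties delivered by part D and used in parts E, F, G -/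
structure Fam.IsGG (F : Fam) : Prop where
  /-- the number of sites tends to infinity -/
  hN : Tendsto F.Nn F.U atTop
  /-- Ghirlanda-Guerra identities in the limit, for arbitrary functions of `n` replicas bounded by 1
  and continuous functions of `T` -/
  gg : ∀ (n : ℕ) (l : Fin n) (f : ∀ i, (Fin n → Cfg (Fin 2) (F.Nn i)) → ℝ),
    (∀ i r, |f i r| ≤ 1) → ∀ ψ : ℝ × ℝ × ℝ → ℝ, Continuous ψ →
      Tendsto (fun i => (F.S i).gg (f i) l ψ) F.U (𝓝 0)
  /-- the self overlap `R01` tends to `u` -/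
  self : ∀ η : ℝ, 0 < η →
    Tendsto (fun i => (F.S i).av (n := 1) (fun r => if η < |ovM (r 0) (r 0) 0 1 - F.u| then 1 else 0))
      F.U (𝓝 0)

/-! ### The perturbed pair system of part D -/

/-- exponents of the perturbation kernels (the exponent zero is allowed: constant kernel) -/
abbrev PM (M : ℕ) : Type := Fin (M + 1) × Fin (M + 1) × Fin (M + 1)

/-- perturbation kernel `R00^p1 R11^p2 ((R00+R01+R10+R11)/4)^p3` -/
noncomputable def Kp {M : ℕ} (p : PM M) (R : Matrix (Fin 2) (Fin 2) ℝ) : ℝ :=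
  R 0 0 ^ (p.1 : ℕ) * R 1 1 ^ (p.2.1 : ℕ) *
    ((R 0 0 + R 0 1 + R 1 0 + R 1 1) / 4) ^ (p.2.2 : ℕ)

/-- index type of the features of the kernel `p` -/
abbrev Ip (M N : ℕ) (p : PM M) : Type :=
  (Fin (p.1 : ℕ) → Fin N) × (Fin (p.2.1 : ℕ) → Fin N) × (Fin (p.2.2 : ℕ) → Fin N)

/-- index type of all perturbation features -/
abbrev IP (M N : ℕ) : Type := Σ p : PM M, Ip M N p

/-- features of the kernel `p` -/
noncomputable def vp {M : ℕ} (N : ℕ) (p : PM M) (ρ : Cfg (Fin 2) N) (i : Ip M N p) : ℝ :=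
  (∏ a, sg (ρ (i.1 a) 0) / Real.sqrt N) * (∏ a, sg (ρ (i.2.1 a) 1) / Real.sqrt N) *
    ∏ a, ((sg (ρ (i.2.2 a) 0) + sg (ρ (i.2.2 a) 1)) / 2) / Real.sqrt N

/-- scale of the perturbation, `s_N = N^(3/8)` -/
noncomputable def sN (N : ℕ) : ℝ := (N : ℝ) ^ (3 / 8 : ℝ)

/-- perturbation features with parameters `x_p` -/
noncomputable def vP (M N : ℕ) (x : PM M → ℝ) (ρ : Cfg (Fin 2) N) (q : IP M N) : ℝ :=
  sN N * x q.1 * vp N q.1 ρ q.2

/-- all features: Hamiltonian scaled by `c`, and perturbation -/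
noncomputable def vA (b1 b2 c : ℝ) (M N : ℕ) (x : PM M → ℝ) (ρ : Cfg (Fin 2) N) :
    (Fin N × Fin N) ⊕ IP M N → ℝ :=
  Sum.elim (fun q => c * vH (be b1 b2) N ρ q) (vP M N x ρ)

/-- penalty `-N (R(σ,τ) - u)^2` -/
noncomputable def Pen (u : ℝ) (N : ℕ) (ρ : Cfg (Fin 2) N) : ℝ := -(N : ℝ) * (ov ρ ρ 0 1 - u) ^ 2

/-- `E log Z_N(x)` of the perturbed pair system -/
noncomputable def LZ (b1 b2 c u : ℝ) (M N : ℕ) (x : PM M → ℝ) : ℝ :=
  EL (Finset.univ : Finset (Cfg (Fin 2) N)) (vA b1 b2 c M N x) (Pen u N)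

/-- the scaling of the Hamiltonian in the primed system -/
noncomputable def cN (N : ℕ) : ℝ := Real.sqrt ((N : ℝ) / (N + 1))

/-- law of the parameters `x`: uniform on `[1,2]^PM` -/
noncomputable def muX (M : ℕ) : Measure (PM M → ℝ) :=
  Measure.pi (fun _ => (volume : Measure ℝ).restrict (Set.Icc 1 2))

end SKC
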