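import Mathlib

/-!
# Temperature chaos in the SK model: common definitions

Paper proof: /team-store/h13_08eaf3_PROOF.md (parts A-J, Z).
-/

set_option autoImplicit false

open MeasureTheory ProbabilityTheory Filter Topology Matrix

namespace SKC

/-! ### Gaussian vectors and log-sum-exp -/

/-- standard Gaussian measure on `ι → ℝ` -/
noncomputable def gam (ι : Type) [Fintype ι] : Measure (ι → ℝ) :=
  Measure.pi (fun _ : ι => gaussianReal 0 1)

noncomputable instance (ι : Type) [Fintype ι] : IsProbabilityMeasure (gam ι) := by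
  unfold gam; infer_instance

/-- dot product -/
noncomputable def dot {ι : Type} [Fintype ι] (x y : ι → ℝ) : ℝ := ∑ i, x i * y i

/-- log-sum-exp over a finset -/
noncomputable def lse {Ω : Type} (B : Finset Ω) (a : Ω → ℝ) : ℝ :=
  Real.log (∑ ω ∈ B, Real.exp (a ω))

/-- expected log-sum-exp of the Gaussian process with features `v` plus the deterministic function `a` -/
noncomputable def EL {Ω ι : Type} [Fintype ι] (B : Finset Ω) (v : Ω → ι → ℝ) (a : Ω → ℝ) : ℝ :=
  ∫ x, lse B (fun ω => dot x (v ω) + a ω) ∂(gam ι)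

/-! ### Spins, overlaps, Hamiltonian -/

/-- the sign of a spin -/
def sg (b : Bool) : ℝ := if b then 1 else -1

/-- configurations of `N` sites with spin coordinates in `K` -/
abbrev Cfg (K : Type) (N : ℕ) : Type := Fin N → K → Bool

/-- overlap matrix -/
noncomputable def ov {K : Type} {N : ℕ} (ρ ρ' : Cfg K N) (c c' : K) : ℝ :=
  (∑ i, sg (ρ i c) * sg (ρ' i c')) / N

/-- `C(R) = ∑ β_c β_c' R_cc'^2` -/
noncomputable def Cf {K : Type} [Fintype K] (β : K → ℝ) (R : Matrix K K ℝ) : ℝ :=
  ∑ c, ∑ c', β c * β c' * R c c' ^ 2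

/-- features of the Hamiltonian `∑_c β_c N^{-1/2} ∑_{ij} g_ij ρ_ci ρ_cj`; covariance `N * Cf β (ov ρ ρ')` -/
noncomputable def vH {K : Type} [Fintype K] (β : K → ℝ) (N : ℕ) (ρ : Cfg K N) :
    Fin N × Fin N → ℝ :=
  fun p => (∑ c, β c * (sg (ρ p.1 c) * sg (ρ p.2 c))) / Real.sqrt N

/-! ### Step paths and the functional

A path is a list of steps `(m, E)`: weight `m` and factor `E` of the increment `E Eᵀ` of the path `Q`.
The cavity field increment has factor `Bm β E = √2 β_c E_cd` (covariance `2 β_c β_c' (E Eᵀ)_cc'`). -/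

/-- a step: weight and factor of the increment -/
abbrev Step (K : Type) : Type := ℝ × Matrix K K ℝ

/-- factor of the field increment -/
noncomputable def Bm {K : Type} (β : K → ℝ) (E : Matrix K K ℝ) : Matrix K K ℝ :=
  fun c d => Real.sqrt 2 * β c * E c d

/-- `T_m f (z) = (1/m) log E exp(m f(z + B x))`, and `E f(z+Bx)` for `m = 0` -/
noncomputable def Tm {K : Type} [Fintype K] (m : ℝ) (B : Matrix K K ℝ)
    (f : (K → ℝ) → ℝ) (z : K → ℝ) : ℝ :=
  if m = 0 then ∫ x, f (z + B.mulVec x) ∂(gam K)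
  else (1 / m) * Real.log (∫ x, Real.exp (m * f (z + B.mulVec x)) ∂(gam K))

/-- the recursion: `Psi` of the levels in the list, terminal function `F` -/
noncomputable def PsiL {K : Type} [Fintype K] (β : K → ℝ) :
    List (Step K) → ((K → ℝ) → ℝ) → ((K → ℝ) → ℝ)
  | [], F => F
  | (s :: l), F => Tm s.1 (Bm β s.2) (PsiL β l F)

/-- terminal function `log ∑_s exp(<s,z> + t φ(s))` -/
noncomputable def psiEnd {K : Type} [Fintype K] [DecidableEq K] (φ : (K → Bool) → ℝ) (t : ℝ)
    (z : K → ℝ) : ℝ :=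
  Real.log (∑ s : K → Bool, Real.exp ((∑ c, sg (s c) * z c) + t * φ s))

/-- value of the path at the end of the list -/
noncomputable def Qtot {K : Type} [Fintype K] : List (Step K) → Matrix K K ℝ
  | [] => 0
  | (s :: l) => s.2 * s.2ᵀ + Qtot l

/-- correction term `∑ m_j (C(Q_j) - C(Q_{j-1}))`, starting from `Q` -/
noncomputable def corr {K : Type} [Fintype K] (β : K → ℝ) : Matrix K K ℝ → List (Step K) → ℝ
  | _, [] => 0
  | Q, (s :: l) => s.1 * (Cf β (Q + s.2 * s.2ᵀ) - Cf β Q) + corr β (Q + s.2 * s.2ᵀ) l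

/-- the Parisi functional of a step path -/
noncomputable def Pf {K : Type} [Fintype K] [DecidableEq K] (β : K → ℝ) (φ : (K → Bool) → ℝ)
    (t : ℝ) (l : List (Step K)) : ℝ :=
  PsiL β l (psiEnd φ t) 0 - (1 / 2) * corr β 0 l

/-- weights are nondecreasing, in `[0,1]`, the last one is `1` -/
def Valid {K : Type} (l : List (Step K)) : Prop :=
  l.Pairwise (fun a b => a.1 ≤ b.1) ∧ (∀ a ∈ l, 0 ≤ a.1 ∧ a.1 ≤ 1) ∧
    ∃ l' E, l = l' ++ [((1 : ℝ), E)]

/-! ### Chains -/

/-- one step of the chain: expectation of `h(z+Bx)` under the density proportional to `exp(m f(z+Bx))` -/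
noncomputable def Es {K : Type} [Fintype K] (m : ℝ) (B : Matrix K K ℝ)
    (f h : (K → ℝ) → ℝ) (z : K → ℝ) : ℝ :=
  (∫ x, h (z + B.mulVec x) * Real.exp (m * f (z + B.mulVec x)) ∂(gam K)) /
    (∫ x, Real.exp (m * f (z + B.mulVec x)) ∂(gam K))

/-- chain expectation along the list `l`, `F` = the function `Psi` at the end of `l` -/
noncomputable def ChE {K : Type} [Fintype K] (β : K → ℝ) :
    List (Step K) → ((K → ℝ) → ℝ) → ((K → ℝ) → ℝ) → ((K → ℝ) → ℝ)
  | [], _, h => h
  | (s :: l), F, h => Es s.1 (Bm β s.2) (PsiL β l F) (ChE β l F h)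

/-- expectation of `φ(s)` for independent spins with means `tanh z_c` -/
noncomputable def spAvg {K : Type} [Fintype K] [DecidableEq K] (φ : (K → Bool) → ℝ) (z : K → ℝ) : ℝ :=
  (∑ s : K → Bool, φ s * Real.exp (∑ c, sg (s c) * z c)) /
    (∑ s : K → Bool, Real.exp (∑ c, sg (s c) * z c))

/-! ### Single system and pair system -/

/-- single system: free energy at size `N` -/
noncomputable def FN (β : ℝ) (N : ℕ) : ℝ :=
  EL (Finset.univ : Finset (Cfg Unit N)) (vH (fun _ => β) N) (fun _ => 0) / N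

/-- the Parisi infimum over step paths with total `1` -/
noncomputable def Fo (β : ℝ) : ℝ :=
  sInf {x : ℝ | ∃ l : List (Step Unit), Valid l ∧ Qtot l = 1 ∧ x = Pf (fun _ => β) (fun _ => 0) 0 l}

/-- pair of inverse temperatures -/
def be (b1 b2 : ℝ) : Fin 2 → ℝ := ![b1, b2]

/-- symmetric 2x2 matrix -/
def mat (q1 q2 r : ℝ) : Matrix (Fin 2) (Fin 2) ℝ := !![q1, r; r, q2]

/-- `n` copies of the pair: inverse temperatures -/
def beN (b1 b2 : ℝ) (J : Type) : J × Fin 2 → ℝ := fun p => be b1 b2 p.2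

/-- configurations whose self-overlaps are within `ε` of `D` -/
noncomputable def near {K : Type} [Fintype K] {N : ℕ} (D : Matrix K K ℝ) (ε : ℝ) : Finset (Cfg K N) := by
  classical
  exact Finset.univ.filter (fun ρ => ∀ c c', |ov ρ ρ c c' - D c c'| ≤ ε)

/-- the family `E` of constraint sets for the `J`-fold pair system is full: its free energy is
frequently at least `|J| (F_1+F_2) - δ` -/
def Full (b1 b2 : ℝ) {J : Type} [Fintype J] (E : ∀ N : ℕ, Finset (Cfg (J × Fin 2) N)) : Prop :=
  ∀ δ : ℝ, 0 < δ → ∃ᶠ N : ℕ in atTop, (E N).Nonempty ∧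
    (Fintype.card J : ℝ) * (Fo b1 + Fo b2) - δ ≤ EL (E N) (vH (beN b1 b2 J) N) (fun _ => 0) / N

/-- the set `U` of overlaps with full free energy -/
def memU (b1 b2 u : ℝ) : Prop :=
  ∀ ε : ℝ, 0 < ε → Full b1 b2 (J := Unit)
    (fun N => near (N := N) (fun p p' => mat 1 1 u p.2 p'.2) ε)

/-- tree matrix over a base index `K`: groups `i`, members `a`; same member `D`, same group `Q'`,
different groups `Q` -/
def treeG {K : Type} (n k : ℕ) (D Q Q' : Matrix K K ℝ) :
    Matrix ((Fin n × Fin k) × K) ((Fin n × Fin k) × K) ℝ :=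
  fun p p' => if p.1 = p'.1 then D p.2 p'.2
    else if p.1.1 = p'.1.1 then Q' p.2 p'.2 else Q p.2 p'.2

/-- tree matrix of pairs: same pair `D_u`, same group `Q'`, different groups `Q` -/
def treeM (n k : ℕ) (u : ℝ) (Q Q' : Matrix (Fin 2) (Fin 2) ℝ) :
    Matrix ((Fin n × Fin k) × Fin 2) ((Fin n × Fin k) × Fin 2) ℝ :=
  treeG n k (mat 1 1 u) Q Q'

/-- all trees with levels `Q, Q'` are full -/
def TreeFull (b1 b2 u : ℝ) (Q Q' : Matrix (Fin 2) (Fin 2) ℝ) : Prop :=
  ∀ n k : ℕ, 0 < n → 0 < k → ∀ ε : ℝ, 0 < ε →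
    Full b1 b2 (J := Fin n × Fin k) (fun N => near (N := N) (treeM n k u Q Q') ε)

/-! ### Lifts of paths to trees (Part B4) -/

/-- lift of a step below the group level: common to all `n k` members, weight divided by `n k` -/
noncomputable def up1 {K : Type} (n k : ℕ) (s : Step K) : Step ((Fin n × Fin k) × K) :=
  (s.1 / ((n : ℝ) * k), fun p p' => s.2 p.2 p'.2 / Real.sqrt ((n : ℝ) * k))

/-- lift of a step between the two levels: common to the `k` members of a group -/
noncomputable def up2 {K : Type} (n k : ℕ) (s : Step K) : Step ((Fin n × Fin k) × K) :=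
  (s.1 / (k : ℝ), fun p p' => if p.1.1 = p'.1.1 then s.2 p.2 p'.2 / Real.sqrt (k : ℝ) else 0)

/-- lift of a step above the second level: independent for the members -/
noncomputable def up3 {K : Type} (n k : ℕ) (s : Step K) : Step ((Fin n × Fin k) × K) :=
  (s.1, fun p p' => if p.1 = p'.1 then s.2 p.2 p'.2 else 0)

/-- lift of the path `l1 ++ l2 ++ l3` (levels `Q = Qtot l1`, `Q' = Qtot (l1 ++ l2)`) -/
noncomputable def lift {K : Type} (n k : ℕ) (l1 l2 l3 : List (Step K)) :
    List (Step ((Fin n × Fin k) × K)) :=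
  l1.map (up1 n k) ++ (l2.map (up2 n k) ++ l3.map (up3 n k))

/-- terminal function `log ∑_s exp <s,z>` -/
noncomputable def F0 {K : Type} [Fintype K] [DecidableEq K] : (K → ℝ) → ℝ :=
  psiEnd (fun _ => 0) 0

/-- magnetisation at the level before the steps `l`: `M_c(z) = E[tanh Z_end,c | Z = z]`
(equal to the derivative of `PsiL β l F0` in direction `c`, Part J) -/
noncomputable def Mg {K : Type} [Fintype K] [DecidableEq K] (β : K → ℝ) (l : List (Step K)) (c : K) :
    (K → ℝ) → ℝ :=
  ChE β l F0 (fun z => Real.tanh (z c))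

end SKC
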