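import Pool.Agent.H.MP_08eaf3_pr.Defs

/-!
# Further common definitions (interfaces between the parts)
-/

set_option autoImplicit false

open MeasureTheory ProbabilityTheory Filter Topology Matrix

namespace SKC

/-- `ℓ¹` norm -/
noncomputable def n1 {K : Type} [Fintype K] (z : K → ℝ) : ℝ := ∑ c, |z c|

/-- continuous, at most linear growth (class of the level functions) -/
def LG {K : Type} [Fintype K] (f : (K → ℝ) → ℝ) : Prop :=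
  Continuous f ∧ ∃ C : ℝ, ∀ z, |f z| ≤ C * (1 + n1 z)

/-- continuous, at most exponential growth (class of the test functions) -/
def EG {K : Type} [Fintype K] (h : (K → ℝ) → ℝ) : Prop :=
  Continuous h ∧ ∃ C : ℝ, ∀ z, |h z| ≤ C * Real.exp (C * n1 z)

/-- admissible list of steps: nondecreasing weights in `[0,1]`, total increment of the diagonal at
most `1` -/
def Ok {K : Type} [Fintype K] (l : List (Step K)) : Prop :=
  l.Pairwise (fun a b => a.1 ≤ b.1) ∧ (∀ a ∈ l, 0 ≤ a.1 ∧ a.1 ≤ 1) ∧ ∀ c, Qtot l c c ≤ 1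

/-- `∑ m_i (Q_i - Q_{i-1})_{01}` -/
noncomputable def Gl (l : List (Step (Fin 2))) : ℝ :=
  (l.map (fun a => a.1 * (a.2 * a.2ᵀ) 0 1)).sum

/-- projection of a pair step to coordinate `d` -/
noncomputable def pr (d : Fin 2) (a : Step (Fin 2)) : Step Unit :=
  (a.1, fun _ _ => Real.sqrt ((a.2 * a.2ᵀ) d d))

/-- one coordinate functional: `PsiL` of a list of single steps as a function on `ℝ` -/
noncomputable def psi1 (b : ℝ) (l : List (Step Unit)) (v : ℝ) : ℝ :=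
  PsiL (fun _ : Unit => b) l F0 (fun _ => v)

/-- magnetisation of the single chain as a function on `ℝ` -/
noncomputable def mg1 (b : ℝ) (l : List (Step Unit)) (v : ℝ) : ℝ :=
  Mg (fun _ : Unit => b) l () (fun _ => v)

/-- `V_e(z) = E[M_c(Q')^e | Z_Q = z]`: `l2` = steps from `Q` to `Q'`, `l3` = steps above `Q'` -/
noncomputable def Vv {K : Type} [Fintype K] [DecidableEq K] (β : K → ℝ) (l2 l3 : List (Step K))
    (c : K) (e : ℕ) : (K → ℝ) → ℝ :=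
  ChE β l2 (PsiL β l3 F0) (fun z' => Mg β l3 c z' ^ e)

/-- near-optimal pair path through the levels `Q`, `Q'` -/
def PairPath (b1 b2 u : ℝ) (Q Q' : Matrix (Fin 2) (Fin 2) ℝ) (δ : ℝ)
    (l1 l2 l3 : List (Step (Fin 2))) : Prop :=
  Valid (l1 ++ (l2 ++ l3)) ∧ l3 ≠ [] ∧ Qtot l1 = Q ∧ Qtot (l1 ++ l2) = Q' ∧ Qtot (l1 ++ (l2 ++ l3)) = mat 1 1 u ∧
    Pf (be b1 b2) (fun _ => 0) 0 (l1 ++ (l2 ++ l3)) ≤ Fo b1 + Fo b2 + δ

/-- near-optimal single path through the levels `q`, `q'` -/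
def SinglePath (b q q' δ : ℝ) (s1 s2 s3 : List (Step Unit)) : Prop :=
  Valid (s1 ++ (s2 ++ s3)) ∧ s3 ≠ [] ∧ Qtot s1 = (fun _ _ => q) ∧ Qtot (s1 ++ s2) = (fun _ _ => q') ∧
    Qtot (s1 ++ (s2 ++ s3)) = 1 ∧
    Pf (fun _ : Unit => b) (fun _ => 0) 0 (s1 ++ (s2 ++ s3)) ≤ Fo b + δ

/-- the data of Theorem L for the overlap `u`: `T` = traces of the support, `Q t` = the matrix of
trace `t`, `μ` = law of the trace of the limit overlap -/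
structure LData (b1 b2 u : ℝ) where
  T : Set ℝ
  Q : ℝ → Matrix (Fin 2) (Fin 2) ℝ
  μ : Measure ℝ
  prob : IsProbabilityMeasure μ
  comp : IsCompact T
  ne : T.Nonempty
  sub : T ⊆ Set.Icc 0 2
  supp1 : μ Tᶜ = 0
  supp2 : ∀ t ∈ T, ∀ ε : ℝ, 0 < ε → 0 < μ (Set.Ioo (t - ε) (t + ε))
  psd : ∀ t ∈ T, (Q t).PosSemidef
  tr : ∀ t ∈ T, Matrix.trace (Q t) = t
  leD : ∀ t ∈ T, (mat 1 1 u - Q t).PosSemidef
  mono : ∀ s ∈ T, ∀ t ∈ T, s ≤ t → (Q t - Q s).PosSemidef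
  tree : ∀ s ∈ T, ∀ t ∈ T, s ≤ t → TreeFull b1 b2 u (Q s) (Q t)
  path : ∀ δ : ℝ, 0 < δ → ∀ s ∈ T, ∀ t ∈ T, s ≤ t → ∃ l1 l2 l3 : List (Step (Fin 2)),
    PairPath b1 b2 u (Q s) (Q t) δ l1 l2 l3 ∧
    (∀ a ∈ l1, a.1 ≤ μ.real (Set.Iio s)) ∧
    (∀ a ∈ l2, μ.real (Set.Iic s) ≤ a.1 ∧ a.1 ≤ μ.real (Set.Iio t)) ∧
    (∀ a ∈ l3, μ.real (Set.Iic t) ≤ a.1) ∧
    (∀ l' l'' : List (Step (Fin 2)), l1 ++ (l2 ++ l3) = l' ++ l'' → l' ≠ [] → l'' ≠ [] →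
      ∃ x ∈ T, Qtot l' = Q x) ∧
    |Gl (l2 ++ l3) - ∫ x, (u - Q (max s x) 0 1) ∂μ| ≤ δ ∧
    |Gl l3 - ∫ x, (u - Q (max t x) 0 1) ∂μ| ≤ δ ∧
    (s = t → l2 = []) ∧
    (s = 0 → l1 = [((0 : ℝ), 0)]) ∧
    ((∀ x ∈ T, x ≤ t) → ∃ E, l3 = [((1 : ℝ), E)])

end SKC
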