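import Pool.Agent.H.MP_08eaf3_pr.J.Low
import Pool.Agent.H.MP_08eaf3_pr.J.Shift
import Pool.Agent.H.MP_08eaf3_pr.J.Small
import Pool.Agent.H.MP_08eaf3_pr.J.Tail
import Pool.Agent.H.MP_08eaf3_pr.J.Der
import Pool.Agent.H.MP_08eaf3_pr.J.Corner
import Pool.Agent.H.MP_08eaf3_pr.J.Half
import Pool.Agent.H.MP_08eaf3_pr.J.Diag
import Pool.Agent.H.MP_08eaf3_pr.J.Sg1
import Pool.Agent.H.MP_08eaf3_pr.J.Sg2
import Pool.Agent.H.MP_08eaf3_pr.J.Sg3
import Pool.Agent.H.MP_08eaf3_pr.J.Sg4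

/-!
# Interface of Part J (uniform estimates for chains; leader helper7)

`K` arbitrary: J1, J2, J7.  Pairs (`Fin 2`): J3, J4, J6.  Single system (`Unit`, as functions on
`ℝ`): J5, J8.  All constants depend only on the inverse temperatures.
-/

set_option autoImplicit false

open MeasureTheory ProbabilityTheory Filter Topology Matrix

namespace SKC

section General

variable {K : Type} [Fintype K] [DecidableEq K]

/-- growth class of the level functions -/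
theorem LG_PsiL (β : K → ℝ) (l : List (Step K)) (F : (K → ℝ) → ℝ) (hF : LG F) :
    LG (PsiL β l F) :=
  J.LG_PsiL β l hF

theorem LG_F0 : LG (F0 : (K → ℝ) → ℝ) :=
  J.LG_F0

/-- chain expectations preserve the growth class -/
theorem EG_ChE (β : K → ℝ) (l : List (Step K)) (F h : (K → ℝ) → ℝ) (hF : LG F) (hh : EG h) :
    EG (ChE β l F h) :=
  J.EG_ChE β l hF hh

/-- chain expectations are positive, normalised, linear -/
theorem ChE_const (β : K → ℝ) (l : List (Step K)) (F : (K → ℝ) → ℝ) (hF : LG F) (c : ℝ) :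
    ChE β l F (fun _ => c) = fun _ => c :=
  J.ChE_const β l hF c

theorem ChE_mono (β : K → ℝ) (l : List (Step K)) (F h h' : (K → ℝ) → ℝ) (hF : LG F) (hh : EG h)
    (hh' : EG h') (hle : ∀ z, h z ≤ h' z) (z : K → ℝ) : ChE β l F h z ≤ ChE β l F h' z :=
  J.ChE_mono β l hF hh hh' hle z

theorem ChE_add (β : K → ℝ) (l : List (Step K)) (F h h' : (K → ℝ) → ℝ) (hF : LG F) (hh : EG h)
    (hh' : EG h') (z : K → ℝ) :
    ChE β l F (fun y => h y + h' y) z = ChE β l F h z + ChE β l F h' z :=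
  J.ChE_add β l hF hh hh' z

theorem ChE_smul (β : K → ℝ) (l : List (Step K)) (F h : (K → ℝ) → ℝ) (c : ℝ) (z : K → ℝ) :
    ChE β l F (fun y => c * h y) z = c * ChE β l F h z :=
  J.ChE_smul β l F h c z

/-- tower property -/
theorem ChE_append (β : K → ℝ) (l l' : List (Step K)) (F h : (K → ℝ) → ℝ) :
    ChE β (l ++ l') F h = ChE β l (PsiL β l' F) (ChE β l' F h) :=
  J.ChE_append β l l' F h

theorem PsiL_append (β : K → ℝ) (l l' : List (Step K)) (F : (K → ℝ) → ℝ) :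
    PsiL β (l ++ l') F = PsiL β l (PsiL β l' F) :=
  J.PsiL_append β l l' F

/-- magnetisations form a martingale -/
theorem Mg_append (β : K → ℝ) (l l' : List (Step K)) (c : K) :
    Mg β (l ++ l') c = ChE β l (PsiL β l' F0) (Mg β l' c) :=
  J.Mg_append β l l' c

/-- Cauchy-Schwarz for chain expectations -/
theorem ChE_sq_le (β : K → ℝ) (l : List (Step K)) (F h : (K → ℝ) → ℝ) (hF : LG F) (hh : EG h)
    (z : K → ℝ) : ChE β l F h z ^ 2 ≤ ChE β l F (fun y => h y ^ 2) z :=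
  J.ChE_sq_le β l hF hh z

/-- J1: parity -/
theorem PsiL_even (β : K → ℝ) (l : List (Step K)) (z : K → ℝ) :
    PsiL β l F0 (-z) = PsiL β l F0 z :=
  J.PsiL_even' β l J.F0_even z

theorem Mg_odd (β : K → ℝ) (l : List (Step K)) (c : K) (z : K → ℝ) :
    Mg β l c (-z) = - Mg β l c z :=
  J.ChE_odd β l J.F0_even (fun y => by rw [Pi.neg_apply, Real.tanh_neg]) z

/-- parity of chains: even data -/
theorem ChE_even (β : K → ℝ) (l : List (Step K)) (F h : (K → ℝ) → ℝ) (hF : ∀ z, F (-z) = F z)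
    (hh : ∀ z, h (-z) = h z) (z : K → ℝ) : ChE β l F h (-z) = ChE β l F h z :=
  J.ChE_even β l hF hh z

/-- J1: convexity -/
theorem PsiL_convex (β : K → ℝ) (l : List (Step K)) (hl : Ok l) :
    ConvexOn ℝ Set.univ (PsiL β l F0) :=
  J.PsiL_convex' β l (fun a ha => (hl.2.1 a ha).1)

/-- J1: the magnetisation is the derivative -/
theorem PsiL_deriv (β : K → ℝ) (l : List (Step K)) (c : K) (z : K → ℝ) :
    HasDerivAt (fun h : ℝ => PsiL β l F0 (z + h • Pi.single c 1)) (Mg β l c z) 0 :=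
  J.PsiL_deriv β l c z

theorem Mg_lt_one (β : K → ℝ) (l : List (Step K)) (c : K) (z : K → ℝ) : |Mg β l c z| < 1 :=
  J.Mg_lt_one β l c z

/-- J1: the magnetisations are Lipschitz with constant 1 (second derivatives of `Psi` are at most
`1 - M_c²` on the diagonal, and the Hessian is positive semidefinite) -/
theorem Mg_lip (β : K → ℝ) (l : List (Step K)) (hl : Ok l) (c : K) (z z' : K → ℝ) :
    |Mg β l c z - Mg β l c z'| ≤ n1 (z - z') :=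
  J.Mg_lip β l hl.2.1 c z z'

/-- J2 -/
theorem PsiL_bounds (β : K → ℝ) : ∃ C : ℝ, 0 ≤ C ∧ ∀ l : List (Step K), Ok l → ∀ z,
    n1 z ≤ PsiL β l F0 z ∧ PsiL β l F0 z ≤ n1 z + C :=
  ⟨J.C2 β, J.C2_nonneg β, fun l hl z => J.PsiL_bounds' β l hl z⟩

/-- `PsiL` is 1-Lipschitz for `ℓ¹` -/
theorem PsiL_lip (β : K → ℝ) (l : List (Step K)) (z z' : K → ℝ) :
    |PsiL β l F0 z - PsiL β l F0 z'| ≤ n1 (z - z') :=
  J.PsiL_lip β l z z'

/-- J4 (any `K`): tails of the magnetisation -/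
theorem Mg_tails (β : K → ℝ) : ∃ C : ℝ, 1 ≤ C ∧ ∀ l : List (Step K), Ok l → ∀ c z,
    1 - Mg β l c z ≤ C * Real.exp (-(2 * z c)) ∧
    C⁻¹ / (1 + Real.exp (2 * z c)) ≤ 1 - Mg β l c z :=
  J.Mg_tails β

/-- J4 tool: exponential moments of the chain started at `z` -/
theorem ChE_exp_le (β : K → ℝ) : ∃ C : ℝ, 1 ≤ C ∧ ∀ l l' : List (Step K), Ok (l ++ l') → ∀ c z,
    ChE β l (PsiL β l' F0) (fun y => Real.exp (-(2 * y c))) z ≤ C * Real.exp (-(2 * z c)) ∧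
    ChE β l (PsiL β l' F0) (fun y => Real.exp (2 * y c)) z ≤ C * Real.exp (2 * z c) :=
  J.ChE_exp_le β

/-- J7: lower bound of the law of the chain from `0` at the level after `l1`, by the Gaussian law.
`E` is any factor of the total increment. -/
theorem ChE_ge_gauss (β : K → ℝ) : ∃ C : ℝ, 0 ≤ C ∧ ∀ l1 l2 : List (Step K), Ok (l1 ++ l2) →
    ∀ E : Matrix K K ℝ, E * Eᵀ = Qtot l1 → ∀ h : (K → ℝ) → ℝ, Continuous h → (∀ z, 0 ≤ h z) →
      (∀ z, h z ≤ 1) → ∀ a : ℝ, 0 < a → a ≤ ∫ x, h ((Bm β E).mulVec x) ∂(gam K) →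
      a * Real.exp (-(C / a)) ≤ ChE β l1 (PsiL β l2 F0) h 0 :=
  J.ChE_ge_gauss β

/-- J7: translation of the starting point -/
theorem ChE_translate (β : K → ℝ) : ∃ C : ℝ, 0 ≤ C ∧ ∀ l2 l3 : List (Step K), Ok (l2 ++ l3) →
    ∀ h : (K → ℝ) → ℝ, EG h → (∀ z, 0 ≤ h z) → ∀ z d : K → ℝ,
      ChE β l2 (PsiL β l3 F0) h (z + d) ≤
        Real.exp (C * n1 d) * ChE β l2 (PsiL β l3 F0) (fun y => h (y + d)) z :=
  J.ChE_translate β

/-- J7: Lipschitz dependence on the starting point -/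
theorem ChE_lip (β : K → ℝ) : ∃ C : ℝ, 0 ≤ C ∧ ∀ l2 l3 : List (Step K), Ok (l2 ++ l3) →
    ∀ h : (K → ℝ) → ℝ, ∀ L : ℝ, 0 ≤ L → (∀ z z', |h z - h z'| ≤ L * n1 (z - z')) →
      (∀ z, |h z| ≤ 1) → ∀ z z' : K → ℝ, n1 (z - z') ≤ 1 →
      |ChE β l2 (PsiL β l3 F0) h z - ChE β l2 (PsiL β l3 F0) h z'| ≤ (C + L) * n1 (z - z') :=
  J.ChE_lip β

/-- J7: Cameron-Martin shift of the whole chain: `A` = covariance of the sum of the increments of
`l2`, `θ` a direction -/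
theorem ChE_shift (β : K → ℝ) : ∃ C : ℝ, 0 ≤ C ∧ ∀ l2 l3 : List (Step K), Ok (l2 ++ l3) →
    ∀ h : (K → ℝ) → ℝ, EG h → (∀ z, 0 ≤ h z) → ∀ z θ : K → ℝ,
      ChE β l2 (PsiL β l3 F0) h z ≤
        Real.exp (C * n1 θ) * ChE β l2 (PsiL β l3 F0)
          (fun y => h (y + (fun c => ∑ d, 2 * β c * β d * Qtot l2 c d * θ d)) *
            Real.exp (-(dot θ (y - z)) -
              (1 / 2) * (∑ c, ∑ d, θ c * (2 * β c * β d * Qtot l2 c d) * θ d))) z :=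
  J.ChE_shift β

/-- S4 tool: for `f` = `PsiL β l F0` and `ε ∈ (0,1]`, `T_ε f(0) ≤ E f + (ε/2) Var f + C ε²` -/
theorem Tm_le_var (β : K → ℝ) : ∃ C : ℝ, 0 ≤ C ∧ ∀ l : List (Step K), Ok l → ∀ E : Matrix K K ℝ,
    (∀ c, (E * Eᵀ) c c ≤ 1) → ∀ ε : ℝ, 0 < ε → ε ≤ 1 → ∀ a : ℝ,
    a = ∫ x, PsiL β l F0 ((Bm β E).mulVec x) ∂(gam K) →
    Tm ε (Bm β E) (PsiL β l F0) 0 ≤ a + (ε / 2) *
      (∫ x, (PsiL β l F0 ((Bm β E).mulVec x) - a) ^ 2 ∂(gam K)) + C * ε ^ 2 :=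
  J.Tm_le_var β

/-- S4 tool: one step of small weight `ε`: the chain law is the Gaussian law up to `C ε` -/
theorem Es_near_gauss (β : K → ℝ) : ∃ C : ℝ, 0 ≤ C ∧ ∀ l : List (Step K), Ok l →
    ∀ E : Matrix K K ℝ, (∀ c, (E * Eᵀ) c c ≤ 1) → ∀ ε : ℝ, 0 ≤ ε → ε ≤ 1 →
    ∀ h : (K → ℝ) → ℝ, Continuous h → (∀ z, |h z| ≤ 1) →
      |Es ε (Bm β E) (PsiL β l F0) h 0 - ∫ x, h ((Bm β E).mulVec x) ∂(gam K)| ≤ C * ε :=
  J.Es_near_gauss β

/-- S4 tool: Jensen, levels are bounded below by Gaussian averages -/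
theorem PsiL_ge_gauss (β : K → ℝ) (l1 l2 : List (Step K)) (hl : Ok (l1 ++ l2))
    (E : Matrix K K ℝ) (hE : E * Eᵀ = Qtot l1) :
    ∫ x, PsiL β l2 F0 ((Bm β E).mulVec x) ∂(gam K) ≤ PsiL β (l1 ++ l2) F0 0 :=
  J.PsiL_ge_gauss β l1 l2 hl E hE

end General

section Pair

/-- J3: the corners `(+,+)` and `(+,-)` -/
theorem corner (b1 b2 : ℝ) : ∃ C : ℝ, 0 ≤ C ∧ ∀ l : List (Step (Fin 2)), Ok l →
    ∃ a a' : ℝ, a - a' = 4 * b1 * b2 * Gl l ∧
      (∀ z : Fin 2 → ℝ, 0 ≤ PsiL (be b1 b2) l F0 z - (z 0 + z 1 + a) ∧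
        PsiL (be b1 b2) l F0 z - (z 0 + z 1 + a) ≤
          Real.log (1 + C * (Real.exp (-(2 * z 0)) + Real.exp (-(2 * z 1)) +
            Real.exp (-(2 * z 0) - 2 * z 1)))) ∧
      (∀ z : Fin 2 → ℝ, 0 ≤ PsiL (be b1 b2) l F0 z - (z 0 - z 1 + a') ∧
        PsiL (be b1 b2) l F0 z - (z 0 - z 1 + a') ≤
          Real.log (1 + C * (Real.exp (-(2 * z 0)) + Real.exp (2 * z 1) +
            Real.exp (-(2 * z 0) + 2 * z 1)))) :=
  J.corner b1 b2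

/-- J6: the half plane `z_c → +∞`, `d` the other coordinate -/
theorem halfplane (b1 b2 : ℝ) : ∃ C : ℝ, 0 ≤ C ∧ ∀ l : List (Step (Fin 2)), Ok l →
    ∀ c d : Fin 2, c ≠ d → ∃ a : ℝ, ∀ z : Fin 2 → ℝ,
      0 ≤ PsiL (be b1 b2) l F0 z -
        (z c + a + psi1 (be b1 b2 d) (l.map (pr d)) (z d + 2 * b1 * b2 * Gl l)) ∧
      PsiL (be b1 b2) l F0 z -
        (z c + a + psi1 (be b1 b2 d) (l.map (pr d)) (z d + 2 * b1 * b2 * Gl l)) ≤
        Real.log (1 + C * Real.exp (-(2 * z c))) :=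
  J.halfplane b1 b2

/-- decoupling: if all increments of `l` are diagonal then `Psi` is a sum -/
theorem PsiL_diag (b1 b2 : ℝ) (l : List (Step (Fin 2))) (hl : Ok l)
    (hd : ∀ a ∈ l, (a.2 * a.2ᵀ) 0 1 = 0) (z : Fin 2 → ℝ) :
    PsiL (be b1 b2) l F0 z = psi1 b1 (l.map (pr 0)) (z 0) + psi1 b2 (l.map (pr 1)) (z 1) :=
  J.PsiL_diag b1 b2 l hd z

/-- decoupling of chains: test functions of one coordinate -/
theorem ChE_diag (b1 b2 : ℝ) (l l' : List (Step (Fin 2))) (hl : Ok (l ++ l'))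
    (hd : ∀ a ∈ l ++ l', (a.2 * a.2ᵀ) 0 1 = 0) (c : Fin 2) (h : ℝ → ℝ) (hh : Continuous h)
    (hb : ∃ C, ∀ v, |h v| ≤ C) (z : Fin 2 → ℝ) :
    ChE (be b1 b2) l (PsiL (be b1 b2) l' F0) (fun y => h (y c)) z =
      ChE (fun _ : Unit => be b1 b2 c) (l.map (pr c))
        (PsiL (fun _ : Unit => be b1 b2 c) (l'.map (pr c)) F0) (fun y => h (y ())) (fun _ => z c) :=
  J.ChE_diag b1 b2 l l' hd c h hh hb z

end Pair

section Single

/-- `psi1` has derivative `mg1` -/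
theorem psi1_deriv (b : ℝ) (l : List (Step Unit)) (v : ℝ) :
    HasDerivAt (psi1 b l) (mg1 b l v) v :=
  Sg.psi1_deriv b l v

/-- J5: strict monotonicity of the magnetisation, uniform -/
theorem mg1_mono (b : ℝ) : ∃ c : ℝ, 0 < c ∧ ∀ l : List (Step Unit), Ok l → ∀ v v' : ℝ, v ≤ v' →
    c * (Real.tanh v' - Real.tanh v) ≤ mg1 b l v' - mg1 b l v :=
  Sg.mg1_mono b

/-- J5: expansion of the magnetisation -/
theorem mg1_expand (b : ℝ) : ∃ C : ℝ, 1 ≤ C ∧ ∀ l : List (Step Unit), Ok l →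
    ∃ α : ℝ, 1 ≤ α ∧ α ≤ C ∧ ∀ v : ℝ,
      |1 - mg1 b l v - 2 * α * Real.exp (-(2 * v))| ≤ C * Real.exp (-(4 * v)) :=
  Sg.mg1_expand b

/-- J3 for the single system -/
theorem psi1_corner (b : ℝ) : ∃ C : ℝ, 0 < C ∧ ∀ l : List (Step Unit), Ok l →
    ∃ a : ℝ, |a| ≤ C ∧ ∀ v : ℝ, 0 ≤ psi1 b l v - (v + a) ∧
      psi1 b l v - (v + a) ≤ Real.log (1 + C * Real.exp (-(2 * v))) ∧
      (0 ≤ v → C⁻¹ * Real.exp (-(2 * v)) ≤ psi1 b l v - (v + a)) :=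
  Sg.psi1_corner b

/-- J8: density of the single chain at the level after `s1` (total variance `A = 2 b² q > 0`), `m` =
the last weight of `s1`: the density is `exp(-v²/2A + m psi1(v) - k v) G(v)` with `G` nondecreasing,
`G(v') ≤ G(v) exp(2 (v'-v))`, `0 < G ≤ C`, `0 ≤ k ≤ m` -/
theorem single_density (b : ℝ) (hb : 0 < b) (q : ℝ) (hq : 0 < q) :
    ∃ C : ℝ, 0 < C ∧ ∀ s1 s2 : List (Step Unit), Ok (s1 ++ s2) →
      Qtot s1 = (fun _ _ => q) → ∃ (m k : ℝ) (G : ℝ → ℝ), 0 ≤ k ∧ k ≤ m ∧ m ≤ 1 ∧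
        (∀ v, 0 < G v) ∧ (∀ v, G v ≤ C) ∧ Monotone G ∧
        (∀ v v', v ≤ v' → G v' ≤ G v * Real.exp (2 * (v' - v))) ∧
        ∀ h : ℝ → ℝ, Continuous h → (∃ B, ∀ v, |h v| ≤ B) →
          ChE (fun _ : Unit => b) s1 (PsiL (fun _ : Unit => b) s2 F0) (fun y => h (y ())) 0 =
            ∫ v, h v * (Real.exp (-(v ^ 2 / (2 * (2 * b ^ 2 * q))) + m * psi1 b s2 v - k * v) * G v) :=
  Sg.single_density b hb q hq

end Single

end SKC
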