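import Pool.Agent.H.MP_08eaf3_pr.Defs2
import Pool.Agent.H.MP_08eaf3_pr.C.Red
import Pool.Agent.H.MP_08eaf3_pr.C.Star
import Pool.Agent.H.MP_08eaf3_pr.C.Psd
import Pool.Agent.H.MP_08eaf3_pr.I.TreeLe

/-!
# Interface of Part C (leader helper99) and I3
-/

set_option autoImplicit false

open MeasureTheory ProbabilityTheory Filter Topology Matrix

namespace SKC

/-- a larger family is full -/
theorem Full.mono {b1 b2 : ℝ} {J : Type} [Fintype J] {E E' : ∀ N : ℕ, Finset (Cfg (J × Fin 2) N)}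
    (h : Full b1 b2 E) (hE : ∀ N, E N ⊆ E' N) : Full b1 b2 E' := by
  rw [SKC.C.full_iff] at h ⊢
  exact h.mono (Eventually.of_forall hE)

/-- C1: concentration of the free energy on any nonempty set of configurations -/
theorem var_lse_vH {K : Type} [Fintype K] (β : K → ℝ) (hβ : ∀ c, 0 ≤ β c) (N : ℕ) (hN : 0 < N)
    (B : Finset (Cfg K N)) (hB : B.Nonempty) :
    ∫ x, (lse B (fun ρ => dot x (vH β N ρ)) - EL B (vH β N) (fun _ => 0)) ^ 2 ∂(gam (Fin N × Fin N)) ≤
      N * (∑ c, β c) ^ 2 :=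
  SKC.C.var_le β hβ hN B hB

/-- C2: if temperature chaos fails (in the normalisation of the frozen statement), there is
`u ≠ 0` in `U`. `hP` = Parisi formula (Part H). -/
theorem chaos_reduction (β β' : ℝ) (hβ : 0 < β) (hβ' : 0 < β')
    (hP : Tendsto (FN (β / Real.sqrt 2)) atTop (𝓝 (Fo (β / Real.sqrt 2))))
    (hP' : Tendsto (FN (β' / Real.sqrt 2)) atTop (𝓝 (Fo (β' / Real.sqrt 2))))
    (hU : ∀ u : ℝ, memU (β / Real.sqrt 2) (β' / Real.sqrt 2) u → u = 0) (ε : ℝ) (hε : 0 < ε) :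
    Filter.Tendsto (fun N : ℕ =>
      ∫ g : Fin N → Fin N → ℝ,
        (∑ σ ∈ Fintype.piFinset (fun _ : Fin N => ({-1, 1} : Finset ℝ)),
          ∑ τ ∈ Fintype.piFinset (fun _ : Fin N => ({-1, 1} : Finset ℝ)),
            if ε ≤ |(∑ i, σ i * τ i) / (N : ℝ)| then
              Real.exp (β * ((∑ i, ∑ j, if i < j then g i j * σ i * σ j else 0) / Real.sqrt N)) *
              Real.exp (β' * ((∑ i, ∑ j, if i < j then g i j * τ i * τ j else 0) / Real.sqrt N))
            else 0) /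
        ((∑ σ ∈ Fintype.piFinset (fun _ : Fin N => ({-1, 1} : Finset ℝ)),
            Real.exp (β * ((∑ i, ∑ j, if i < j then g i j * σ i * σ j else 0) / Real.sqrt N))) *
         (∑ τ ∈ Fintype.piFinset (fun _ : Fin N => ({-1, 1} : Finset ℝ)),
            Real.exp (β' * ((∑ i, ∑ j, if i < j then g i j * τ i * τ j else 0) / Real.sqrt N))))
      ∂(MeasureTheory.Measure.pi (fun _ : Fin N =>
          MeasureTheory.Measure.pi (fun _ : Fin N => ProbabilityTheory.gaussianReal 0 1))))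
    Filter.atTop (nhds 0) := by
  have h1 := SKC.C.far_small (β / Real.sqrt 2) (β' / Real.sqrt 2) (by positivity) (by positivity)
    hP hP' hU ε hε
  refine h1.congr' ?_
  filter_upwards [eventually_gt_atTop 0] with N hN
  exact (SKC.C.frozen_eq β β' ε N hN).symm

/-- C3: if `U ≠ {0}` then `U` has a positive maximum, and it bounds `|v|` for all `v ∈ U` -/
theorem exists_maxU (b1 b2 : ℝ) (hb1 : 0 < b1) (hb2 : 0 < b2) (h : ∃ u, u ≠ 0 ∧ memU b1 b2 u) :
    ∃ u, 0 < u ∧ u ≤ 1 ∧ memU b1 b2 u ∧ ∀ v, memU b1 b2 v → |v| ≤ u :=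
  SKC.C.exists_maxU b1 b2 h

/-- C: the cross overlap of a full star of pairs is in `U` -/
theorem memU_of_tree (b1 b2 u : ℝ) (hb1 : 0 < b1) (hb2 : 0 < b2)
    (hP1 : Tendsto (FN b1) atTop (𝓝 (Fo b1))) (hP2 : Tendsto (FN b2) atTop (𝓝 (Fo b2)))
    (Q Q' : Matrix (Fin 2) (Fin 2) ℝ) (h : TreeFull b1 b2 u Q Q') : memU b1 b2 (Q 0 1) :=
  SKC.C.memU_of_tree b1 b2 u hb1 hb2 Q Q' h

/-- I3: blow-up of a full star: there is a level `Q'` above `Q` with cross overlap `u` -/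
theorem blowup (b1 b2 u : ℝ) (hb1 : 0 < b1) (hb2 : 0 < b2) (Q : Matrix (Fin 2) (Fin 2) ℝ)
    (h : TreeFull b1 b2 u Q Q) :
    ∃ q1 q2 : ℝ, TreeFull b1 b2 u Q (mat q1 q2 u) ∧ (mat q1 q2 u - Q).PosSemidef ∧
      (mat 1 1 u - mat q1 q2 u).PosSemidef := by
  obtain ⟨q1, q2, hq⟩ := SKC.C.tree_full b1 b2 u hb1.le hb2.le Q h
  have hsub : ∀ (A B : Matrix (Fin 2) (Fin 2) ℝ) (v : Fin 2 → ℝ),
      SKC.C.qf (A - B) v = SKC.C.qf A v - SKC.C.qf B v := by
    intro A B v
    simp only [SKC.C.qf, Fin.sum_univ_two, Matrix.sub_apply]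
    ring
  have hmat : ∀ (a b r : ℝ) (c c' : Fin 2), mat a b r c c' = mat a b r c' c := by
    intro a b r c c'
    fin_cases c <;> fin_cases c' <;> simp [mat]
  refine ⟨q1, q2, hq, ?_, ?_⟩
  · refine SKC.C.psd_of_qf (fun c c' => ?_) (fun v => ?_)
    · rw [Matrix.sub_apply, Matrix.sub_apply, hmat q1 q2 u c c', SKC.C.tree_symm hq c c']
    · rw [hsub]
      have := SKC.C.qf_low hq v
      linarith
  · refine SKC.C.psd_of_qf (fun c c' => ?_) (fun v => ?_)
    · rw [Matrix.sub_apply, Matrix.sub_apply, hmat q1 q2 u c c', hmat 1 1 u c c']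
    · rw [hsub]
      have := SKC.C.qf_top hq v
      linarith

/-- dropping the other system: the tree free energy with a term depending only on coordinate `c` is
at most the one of the `nk` replicas of the single system plus `nk` free energies of the other one -/
theorem EL_tree_le (b1 b2 u : ℝ) (hb1 : 0 < b1) (hb2 : 0 < b2) (Q Q' : Matrix (Fin 2) (Fin 2) ℝ)
    (n k : ℕ) (c c' : Fin 2) (hc : c ≠ c') (ε : ℝ) (N : ℕ) (hN : 0 < N)
    (hne : (near (N := N) (treeM n k u Q Q') ε).Nonempty)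
    (φ : ((Fin n × Fin k) × Unit → Bool) → ℝ) (t : ℝ) :
    (near (K := (Fin n × Fin k) × Unit) (N := N)
        (treeG n k (fun _ _ => 1) (fun _ _ => Q c c) (fun _ _ => Q' c c)) ε).Nonempty ∧
    EL (near (N := N) (treeM n k u Q Q') ε) (vH (beN b1 b2 (Fin n × Fin k)) N)
        (fun ρ => t * ∑ i, φ (fun p => ρ i (p.1, c))) ≤
      EL (near (K := (Fin n × Fin k) × Unit) (N := N)
          (treeG n k (fun _ _ => 1) (fun _ _ => Q c c) (fun _ _ => Q' c c)) ε)
        (vH (fun _ => be b1 b2 c) N) (fun ρ => t * ∑ i, φ (ρ i)) +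
      (n : ℝ) * k * (N * FN (be b1 b2 c') N) :=
  SKC.I.EL_tree_le b1 b2 u Q Q' n k c c' hc ε N hN hne φ t

end SKC
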