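import Pool.Agent.H.MP_08eaf3_pr.IfB
import Pool.Agent.H.MP_08eaf3_pr.IfC
import Pool.Agent.H.MP_08eaf3_pr.I.TouchB

/-!
# Interface of Part I (touching; leader helper79)
-/

set_option autoImplicit false

open MeasureTheory ProbabilityTheory Filter Topology Matrix

namespace SKC

/-- I2 (i) at the lower level -/
theorem touch_low (b1 b2 u : ℝ) (hb1 : 0 < b1) (hb2 : 0 < b2) (Q Q' : Matrix (Fin 2) (Fin 2) ℝ)
    (hT : TreeFull b1 b2 u Q Q') (δ : ℝ) (hδ : 0 ≤ δ) (l1 l2 l3 : List (Step (Fin 2)))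
    (hp : PairPath b1 b2 u Q Q' δ l1 l2 l3) (c c' : Fin 2) :
    |ChE (be b1 b2) l1 (PsiL (be b1 b2) (l2 ++ l3) F0)
        (fun z => Mg (be b1 b2) (l2 ++ l3) c z * Mg (be b1 b2) (l2 ++ l3) c' z) 0 - Q c c'| ≤
      6 * Real.sqrt δ :=
  I.touch_low b1 b2 u hb1 hb2 Q Q' hT δ hδ l1 l2 l3 hp c c'

/-- I2 (i) at the upper level -/
theorem touch_high (b1 b2 u : ℝ) (hb1 : 0 < b1) (hb2 : 0 < b2) (Q Q' : Matrix (Fin 2) (Fin 2) ℝ)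
    (hT : TreeFull b1 b2 u Q Q') (δ : ℝ) (hδ : 0 ≤ δ) (l1 l2 l3 : List (Step (Fin 2)))
    (hp : PairPath b1 b2 u Q Q' δ l1 l2 l3) (c c' : Fin 2) :
    |ChE (be b1 b2) (l1 ++ l2) (PsiL (be b1 b2) l3 F0)
        (fun z => Mg (be b1 b2) l3 c z * Mg (be b1 b2) l3 c' z) 0 - Q' c c'| ≤
      6 * Real.sqrt δ :=
  I.touch_high b1 b2 u hb1 hb2 Q Q' hT δ hδ l1 l2 l3 hp c c'

/-- I2 (i) for one pair -/
theorem touch_pair (b1 b2 u : ℝ) (hb1 : 0 < b1) (hb2 : 0 < b2) (Q Q' : Matrix (Fin 2) (Fin 2) ℝ)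
    (hT : TreeFull b1 b2 u Q Q') (δ : ℝ) (hδ : 0 ≤ δ) (l1 l2 l3 : List (Step (Fin 2)))
    (hp : PairPath b1 b2 u Q Q' δ l1 l2 l3) :
    |ChE (be b1 b2) (l1 ++ (l2 ++ l3)) F0 (fun z => Real.tanh (z 0) * Real.tanh (z 1)) 0 - u| ≤
      6 * Real.sqrt δ :=
  I.touch_pair b1 b2 u hb1 hb2 Q Q' hT δ hδ l1 l2 l3 hp

/-- I2 (ii): the joint moments of the pair chain in coordinate `c` are those of the single chain -/
theorem touch_single (b1 b2 u : ℝ) (hb1 : 0 < b1) (hb2 : 0 < b2)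
    (_hP1 : Tendsto (FN b1) atTop (𝓝 (Fo b1))) (_hP2 : Tendsto (FN b2) atTop (𝓝 (Fo b2)))
    (Q Q' : Matrix (Fin 2) (Fin 2) ℝ)
    (hT : TreeFull b1 b2 u Q Q') (n : ℕ) (e : Fin n → ℕ) :
    ∃ C : ℝ, 0 ≤ C ∧ ∀ δ : ℝ, 0 ≤ δ → ∀ l1 l2 l3 : List (Step (Fin 2)),
      PairPath b1 b2 u Q Q' δ l1 l2 l3 → ∀ c : Fin 2, ∀ s1 s2 s3 : List (Step Unit),
      SinglePath (be b1 b2 c) (Q c c) (Q' c c) δ s1 s2 s3 →
      |ChE (be b1 b2) l1 (PsiL (be b1 b2) (l2 ++ l3) F0)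
          (fun z => ∏ i, Vv (be b1 b2) l2 l3 c (e i) z) 0 -
        ChE (fun _ : Unit => be b1 b2 c) s1 (PsiL (fun _ : Unit => be b1 b2 c) (s2 ++ s3) F0)
          (fun z => ∏ i, Vv (fun _ : Unit => be b1 b2 c) s2 s3 () (e i) z) 0| ≤
        C * Real.sqrt δ :=
  I.touch_single b1 b2 u hb1 hb2 Q Q' hT n e

end SKC
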