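import Pool.Agent.H.MP_08eaf3_pr.Defs2
import Pool.Agent.H.MP_08eaf3_pr.H.Par
import Pool.Agent.H.MP_08eaf3_pr.H.LdB

/-!
# Parts D-H: Parisi formula and Theorem L (leaders helper77, 15, 34, 16)
-/

set_option autoImplicit false

open MeasureTheory ProbabilityTheory Filter Topology Matrix

namespace SKC

/-- H2: the Parisi formula -/
theorem parisi (b : ℝ) (hb : 0 < b) : Tendsto (FN b) atTop (𝓝 (Fo b)) :=
  SKC.H.parisi hb.le

/-- Theorem L -/
theorem thmL (b1 b2 u : ℝ) (hb1 : 0 < b1) (hb2 : 0 < b2) (hu : memU b1 b2 u) :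
    Nonempty (LData b1 b2 u) :=
  SKC.H.thmL b1 b2 u hb1 hb2 hu

end SKC
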