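import Pool.Agent.H.MP_08eaf3_pr.Z.Fin

/-!
# The frozen statement from the parts
-/

set_option autoImplicit false

open MeasureTheory ProbabilityTheory Filter Topology

namespace SKC

theorem main_chaos : ∀ β β' : ℝ, 0 < β → 0 < β' → β ≠ β' → ∀ ε : ℝ, 0 < ε →
    Filter.Tendsto (fun N : ℕ =>
      ∫ g : Fin N → Fin N → ℝ,
        (∑ σ ∈ Fintype.piFinset (fun _ : Fin N => ({-1, 1} : Finset ℝ)),
          ∑ τ ∈ Fintype.piFinset (fun _ : Fin N => ({-1, 1} : Finset ℝ)),
            if ε ≤ |(∑ i, σ i * τ i) / (N : ℝ)| then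
              Real.exp (β * ((∑ i, ∑ j, if i < j then g i j * σ i * σ j else 0) / Real.sqrt N)) *
              Real.exp (β' * ((∑ i, ∑ j, if i < j then g i j * τ i * τ j else 0) / Real.sqrt N))
            else 0) /
        ((∑ σ ∈ Fintype.piFinset (fun _ : Fin N => ({-1, 1} : Finset ℝ)),
            Real.exp (β * ((∑ i, ∑ j, if i < j then g i j * σ i * σ j else 0) / Real.sqrt N))) *
         (∑ τ ∈ Fintype.piFinset (fun _ : Fin N => ({-1, 1} : Finset ℝ)),
            Real.exp (β' * ((∑ i, ∑ j, if i < j then g i j * τ i * τ j else 0) / Real.sqrt N))))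
      ∂(MeasureTheory.Measure.pi (fun _ : Fin N =>
          MeasureTheory.Measure.pi (fun _ : Fin N => ProbabilityTheory.gaussianReal 0 1))))
    Filter.atTop (nhds 0) := by
  intro β β' hβ hβ' hne ε hε
  have h2 : (0 : ℝ) < Real.sqrt 2 := by positivity
  have hb : 0 < β / Real.sqrt 2 := by positivity
  have hb' : 0 < β' / Real.sqrt 2 := by positivity
  have hne' : β / Real.sqrt 2 ≠ β' / Real.sqrt 2 := by
    intro h
    exact hne ((div_left_inj' h2.ne').1 h)
  exact chaos_reduction β β' hβ hβ' (parisi _ hb) (parisi _ hb')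
    (fun u hu => Z.noU _ _ hb hb' hne' (parisi _ hb) (parisi _ hb') u hu) ε hε

end SKC
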